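import Mathlib
import Pool.Agent.Helper96.LB3.Stmts

/-!
Row CLB of the project LB3: a lower bound for the area of a centrally symmetric planar polygon
by twice the integral of its upper boundary.
-/

open MeasureTheory Set
open scoped ENNReal

namespace Pool.Agent.Helper78.LB3

open Pool.Agent.Helper96.LB3

/-- The terms of the infimum `topf`. -/
noncomputable def ff {E : Type} (g1 g2 A : E → ℝ) (x : ℝ) (e : Option E) : ℝ :=
  match e with
    | none => 1
    | some e => if 0 < g2 e then (A e - g1 e * x) / g2 e else 1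

theorem topf_eq {E : Type} (g1 g2 A : E → ℝ) (x : ℝ) :
    topf g1 g2 A x = ⨅ e : Option E, ff g1 g2 A x e := rfl

theorem ff_none {E : Type} (g1 g2 A : E → ℝ) (x : ℝ) : ff g1 g2 A x none = 1 := rfl

theorem ff_some {E : Type} (g1 g2 A : E → ℝ) (x : ℝ) (e : E) :
    ff g1 g2 A x (some e) = if 0 < g2 e then (A e - g1 e * x) / g2 e else 1 := rfl

theorem le_topf_iff {E : Type} [Fintype E] (g1 g2 A : E → ℝ) (x y : ℝ) :
    y ≤ topf g1 g2 A x ↔ y ≤ 1 ∧ ∀ e, 0 < g2 e → y ≤ (A e - g1 e * x) / g2 e := by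
  rw [topf_eq]
  constructor
  · intro h
    have hb : BddBelow (range (ff g1 g2 A x)) := (Set.finite_range _).bddBelow
    refine ⟨?_, fun e he => ?_⟩
    · have := h.trans (ciInf_le hb none)
      rwa [ff_none] at this
    · have := h.trans (ciInf_le hb (some e))
      rwa [ff_some, if_pos he] at this
  · rintro ⟨h1, h2⟩
    refine le_ciInf fun e => ?_
    cases e with
    | none => rw [ff_none]; exact h1
    | some e =>
      rw [ff_some]
      split_ifs with he
      · exact h2 e he
      · exact h1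

theorem continuous_topf {E : Type} [Fintype E] (g1 g2 A : E → ℝ) :
    Continuous (topf g1 g2 A) := by
  have h : topf g1 g2 A = fun x => Finset.univ.inf' Finset.univ_nonempty
      (fun e : Option E => ff g1 g2 A x e) := by
    funext x
    rw [topf_eq, Finset.inf'_univ_eq_ciInf]
  rw [h]
  refine Continuous.finset_inf'_apply Finset.univ_nonempty fun e _ => ?_
  cases e with
  | none => simp only [ff_none]; exact continuous_const
  | some e =>
    simp only [ff_some]
    split_ifs with he
    · exact (continuous_const.sub (continuous_const.mul continuous_id)).div_const _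
    · exact continuous_const

/-- Membership in `Q` in terms of the upper boundary. -/
theorem mem_Q_iff {E : Type} [Fintype E] (g1 g2 A : E → ℝ) (hS : Sym g1 g2 A)
    (h0 : ∀ e, g2 e = 0 → |g1 e| ≤ A e) (p : ℝ × ℝ) :
    p ∈ Q g1 g2 A ↔ p.1 ∈ Icc (-1 : ℝ) 1 ∧ -topf g1 g2 A (-p.1) ≤ p.2 ∧
      p.2 ≤ topf g1 g2 A p.1 := by
  have hneg : -topf g1 g2 A (-p.1) ≤ p.2 ↔ -p.2 ≤ topf g1 g2 A (-p.1) := by
    constructor <;> intro h <;> linarith
  rw [hneg, le_topf_iff, le_topf_iff]
  simp only [Q, mem_ofPred_eq, mem_Icc, abs_le]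
  constructor
  · rintro ⟨h1, h2, h3⟩
    refine ⟨h1, ⟨by linarith [h2.1], fun e he => ?_⟩, h2.2, fun e he => ?_⟩
    · obtain ⟨e', a1, a2, a3⟩ := hS e
      have := h3 e'
      rw [a1, a2, a3] at this
      rw [le_div_iff₀ he]
      linarith
    · have := h3 e
      rw [le_div_iff₀ he]
      linarith
  · rintro ⟨h1, ⟨h2, h3⟩, h4, h5⟩
    refine ⟨h1, ⟨by linarith, h4⟩, fun e => ?_⟩
    rcases lt_trichotomy (g2 e) 0 with he | he | he
    · obtain ⟨e', a1, a2, a3⟩ := hS e
      have he' : 0 < g2 e' := by rw [a2]; linarith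
      have := h3 e' he'
      rw [le_div_iff₀ he', a1, a2, a3] at this
      linarith
    · have hh := h0 e he
      rw [he]
      have h6 : g1 e * p.1 ≤ |g1 e| := by
        refine (le_abs_self _).trans ?_
        rw [abs_mul]
        have : |p.1| ≤ 1 := abs_le.2 h1
        nlinarith [abs_nonneg (g1 e)]
      linarith
    · have := h5 e he
      rw [le_div_iff₀ he] at this
      linarith

theorem st_CLB : ST_CLB := by
  intro E _ g1 g2 A hS h0
  set T := topf g1 g2 A with hT
  have hTc : Continuous T := continuous_topf g1 g2 A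
  set f : ℝ → ℝ := fun x => -T (-x) with hf
  set g : ℝ → ℝ := fun x => max (f x) (T x) with hg
  have hfc : Continuous f := (hTc.comp continuous_neg).neg
  have hgc : Continuous g := hfc.max hTc
  have hfi : IntegrableOn f (Icc (-1 : ℝ) 1) volume := hfc.continuousOn.integrableOn_Icc
  have hgi : IntegrableOn g (Icc (-1 : ℝ) 1) volume := hgc.continuousOn.integrableOn_Icc
  have hTi : IntegrableOn T (Icc (-1 : ℝ) 1) volume := hTc.continuousOn.integrableOn_Icc
  have hfg : ∀ x ∈ Icc (-1 : ℝ) 1, f x ≤ g x := fun x _ => le_max_left _ _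
  have hvol := volume_regionBetween_eq_integral hfi hgi measurableSet_Icc hfg
  have hsub : regionBetween f g (Icc (-1 : ℝ) 1) ⊆ Q g1 g2 A := by
    rintro p ⟨hp1, hp2⟩
    rw [mem_Q_iff g1 g2 A hS h0]
    have h1 : f p.1 < p.2 := hp2.1
    have h2 : p.2 < max (f p.1) (T p.1) := hp2.2
    refine ⟨hp1, h1.le, ?_⟩
    rcases lt_max_iff.1 h2 with h | h
    · exact absurd h (not_lt.2 h1.le)
    · exact h.le
  have hQ : volume (Q g1 g2 A) ≠ ∞ := by
    have hb : Q g1 g2 A ⊆ Icc ((-1 : ℝ), (-1 : ℝ)) (1, 1) := by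
      rintro p ⟨h1, h2, -⟩
      rw [abs_le] at h1 h2
      exact ⟨⟨h1.1, h2.1⟩, ⟨h1.2, h2.2⟩⟩
    exact ((measure_mono hb).trans_lt isCompact_Icc.measure_lt_top).ne
  have h1 : (volume (regionBetween f g (Icc (-1 : ℝ) 1))).toReal ≤ volume.real (Q g1 g2 A) :=
    ENNReal.toReal_mono hQ (measure_mono hsub)
  have hv : (volume : Measure (ℝ × ℝ)) = (volume : Measure ℝ).prod volume :=
    Measure.volume_eq_prod ℝ ℝ
  rw [hv, hvol] at h1
  have h2 : ∫ x in Icc (-1 : ℝ) 1, (g - f) x ≤
      (ENNReal.ofReal (∫ x in Icc (-1 : ℝ) 1, (g - f) x)).toReal := by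
    rw [ENNReal.toReal_ofReal']
    exact le_max_left _ _
  have h3 : ∫ x in Icc (-1 : ℝ) 1, (T x - f x) ≤ ∫ x in Icc (-1 : ℝ) 1, (g - f) x := by
    refine setIntegral_mono_on (hTi.sub hfi) (hgi.sub hfi) measurableSet_Icc fun x _ => ?_
    have : T x ≤ g x := le_max_right _ _
    simp only [Pi.sub_apply]
    linarith
  have h4 : ∫ x in Icc (-1 : ℝ) 1, (T x - f x) = 2 * ∫ x in (-1 : ℝ)..1, T x := by
    rw [integral_Icc_eq_integral_Ioc, ← intervalIntegral.integral_of_le (by norm_num)]
    rw [intervalIntegral.integral_sub (hTc.intervalIntegrable _ _) (hfc.intervalIntegrable _ _)]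
    have h5 : ∫ x in (-1 : ℝ)..1, f x = - ∫ x in (-1 : ℝ)..1, T x := by
      simp only [hf, intervalIntegral.integral_neg]
      rw [intervalIntegral.integral_comp_neg (fun x => T x)]
      norm_num
    rw [h5]
    ring
  rw [hv]
  linarith

end Pool.Agent.Helper78.LB3

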